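import Pool.Agent.Helper25.FA.Exi
import Pool.Agent.Helper22.FW.Add

/-!
# Numbers of pairs of rows / columns of an array (FW, row NUM-A)

`AR D l en E`, a row `a`, two columns `c ≠ c'`: the pair of right vertices, the left vertex, the two second centres.
The other side is `h.mir`.
-/

set_option autoImplicit false

namespace Pool.Agent.Helper18.FW

open Finset Pool.Agent.Helper69.RK Pool.Agent.Helper61.GL Pool.Agent.Helper31.EC Pool.Agent.Helper6.VS
  Pool.Agent.Helper25.FA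

section num

variable {Ω φ α β : Type} [Fintype Ω] {N : ℕ} {D : ED Ω φ α β N} {Λ ιr ιc : Type} [Fintype Λ] [Fintype ιr]
  [Fintype ιc] [DecidableEq ιr] [DecidableEq ιc] {l : Λ → ℝ} {en : ιr → ιc → Λ → Ω} {E : ℝ}

/-- the centre is independent of every label of the vertices -/
theorem num_Z (h : AR D l en E) (a0 : ιr) (b0 : ιc) {χ : Type} (X : Λ → χ)
    (hX : ∀ w w', l w ≠ 0 → l w' ≠ 0 → (∀ a b, D.P (en a b w) = D.P (en a b w')) →
      (∀ a b, D.Q (en a b w) = D.Q (en a b w')) → D.F (en a0 b0 w) = D.F (en a0 b0 w') → X w = X w') :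
    CH l (fun w => D.zd (en a0 b0 w)) (fun w => D.F (en a0 b0 w)) ≤
      CH l (fun w => D.zd (en a0 b0 w)) (fun w => (X w, D.F (en a0 b0 w))) + E := by
  have h1 := h.Z_low a0 b0
  have h2 : CH l (fun w => D.zd (en a0 b0 w)) (fun w => ((PR D en b0 univ w, QC D en a0 univ w), D.F (en a0 b0 w))) ≤
      CH l (fun w => D.zd (en a0 b0 w)) (fun w => (X w, D.F (en a0 b0 w))) := by
    apply ch_cond l h.nn
    intro w w' hw hw' e
    simp only [Prod.mk.injEq] at e ⊢
    refine ⟨hX w w' hw hw' ?_ ?_ e.2, e.2⟩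
    · intro a b
      rw [h.sP w hw a b b0, h.sP w' hw' a b b0]
      exact congrFun e.1.1 ⟨a, Finset.mem_univ a⟩
    · intro a b
      rw [h.sQ w hw a a0 b, h.sQ w' hw' a a0 b]
      exact congrFun e.1.2 ⟨b, Finset.mem_univ b⟩
  have h3 := h.CH_en a0 b0 D.zd D.F
  linarith

omit [DecidableEq ιr] [DecidableEq ιc] in
/-- the second centre of `(a, c)` and the centre, given the vertices -/
theorem z_of_z3 (h : AR D l en E) (hm : mass D.μ = 1) (a : ιr) (c : ιc) {χ : Type} (X : Λ → χ)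
    (hX : ∀ w w', l w ≠ 0 → l w' ≠ 0 → X w = X w' → D.P (en a c w) = D.P (en a c w') ∧
      D.Q (en a c w) = D.Q (en a c w')) :
    CH l (fun w => D.zd (en a c w)) X ≤ CH l (fun w => D.z3d (en a c w)) X + N := by
  have hml : mass l = 1 := by
    rw [← push_mass (en a c) l h.nn, h.pu a c, hm]
  have h1 := ch_tri l h.nn (fun w => D.zd (en a c w)) (fun w => D.z3d (en a c w)) X
  have h2 := ch_vec l h.nn (fun w => D.zd (en a c w)) (fun w => (D.z3d (en a c w), X w)) 1 (by
    intro w w' hw hw' e i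
    rw [Prod.mk.injEq] at e
    obtain ⟨e1, e2⟩ := e
    obtain ⟨e3, e4⟩ := hX w w' hw hw' e2
    have h3 := fl_lt D.n (congrFun e1 i)
    have h4 : D.z3 (en a c w) i - D.z3 (en a c w') i = D.z (en a c w) i - D.z (en a c w') i := by
      show D.z (en a c w) i + D.om (D.P (en a c w)) (D.Q (en a c w)) i -
        (D.z (en a c w') i + D.om (D.P (en a c w')) (D.Q (en a c w')) i) = _
      rw [e3, e4]
      ring
    rw [h4] at h3
    exact fl_near D.n 1 (by rw [Nat.cast_one]; exact h3))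
  have h3 : (N : ℝ) * Real.logb 2 (((1 : ℕ) : ℝ) + 1) * mass l = N := by
    rw [hml, mul_one]
    have : ((1 : ℕ) : ℝ) + 1 = 2 := by norm_num
    rw [this, Real.logb_self_eq_one (by norm_num), mul_one]
  rw [h3] at h2
  linarith

/-- the second centre is independent of the vertices -/
theorem num_z3 (h : AR D l en E) (hm : mass D.μ = 1) (e3 : ℝ) (h3 : CH D.μ D.z3d D.F ≤ CH D.μ D.zd D.F + e3)
    (a : ιr) (c : ιc) (b0 : ιc) {χ : Type} (X : Λ → χ)
    (hX : ∀ w w', l w ≠ 0 → l w' ≠ 0 → X w = X w' → D.P (en a c w) = D.P (en a c w') ∧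
      D.Q (en a c w) = D.Q (en a c w'))
    (hX' : ∀ w w', l w ≠ 0 → l w' ≠ 0 → (∀ a b, D.P (en a b w) = D.P (en a b w')) →
      (∀ a b, D.Q (en a b w) = D.Q (en a b w')) → D.F (en a b0 w) = D.F (en a b0 w') → X w = X w') :
    CH l (fun w => D.z3d (en a c w)) (fun w => D.F (en a b0 w)) -
      CH l (fun w => D.z3d (en a c w)) (fun w => (X w, D.F (en a b0 w))) ≤ E + N + e3 := by
  have h1 := num_Z h a b0 X hX'
  have h2 := z_of_z3 h hm a c (fun w => (X w, D.F (en a b0 w))) (fun w w' hw hw' e => hX w w' hw hw' (Prod.mk.inj e).1)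
  have h4 : CH l (fun w => D.zd (en a c w)) (fun w => (X w, D.F (en a b0 w))) =
      CH l (fun w => D.zd (en a b0 w)) (fun w => (X w, D.F (en a b0 w))) := by
    apply ch_congr_left
    intro w w' hw hw' _
    show D.zd (en a c w) = D.zd (en a c w') ↔ D.zd (en a b0 w) = D.zd (en a b0 w')
    rw [h.sZ w hw a c a b0, h.sZ w' hw' a c a b0]
  have h5 : CH l (fun w => D.z3d (en a c w)) (fun w => D.F (en a b0 w)) = CH D.μ D.z3d D.F := by
    rw [← h.CH_en a c D.z3d D.F]
    apply ch_congr_right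
    intro w w' hw hw'
    rw [h.sF w hw a c a b0, h.sF w' hw' a c a b0]
  have h6 := h.CH_en a b0 D.zd D.F
  linarith

/-- two columns are independent of a row -/
theorem num_pair (h : AR D l en E) (a : ιr) (b0 : ιc) {c c' : ιc} (hc : c ≠ c') {χ : Type} (X : Λ → χ)
    (hX' : ∀ w w', l w ≠ 0 → l w' ≠ 0 → (∀ a b, D.P (en a b w) = D.P (en a b w')) →
      (∀ a b, b ≠ c → b ≠ c' → D.Q (en a b w) = D.Q (en a b w')) → D.F (en a b0 w) = D.F (en a b0 w') →
        X w = X w') :
    2 * CH D.μ D.Q D.F - E ≤ CH l (fun w => (D.Q (en a c w), D.Q (en a c' w))) (fun w => (X w, D.F (en a b0 w))) := by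
  have h1 := h.QC_low a b0 {c, c'}
  rw [Finset.card_pair hc] at h1
  have h2 : CH l (QC D en a {c, c'}) (fun w => ((PR D en b0 univ w, QC D en a {c, c'}ᶜ w), D.F (en a b0 w))) ≤
      CH l (fun w => (D.Q (en a c w), D.Q (en a c' w))) (fun w => (X w, D.F (en a b0 w))) := by
    refine (ch_mono l h.nn _ (fun w => (D.Q (en a c w), D.Q (en a c' w))) _ ?_).trans (ch_cond l h.nn _ _ _ ?_)
    · intro w w' _ _ e _
      rw [Prod.mk.injEq] at e
      funext b
      have hb := b.2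
      rw [Finset.mem_insert, Finset.mem_singleton] at hb
      show D.Q (en a b.1 w) = D.Q (en a b.1 w')
      rcases hb with hb | hb
      · rw [hb]
        exact e.1
      · rw [hb]
        exact e.2
    · intro w w' hw hw' e
      simp only [Prod.mk.injEq] at e ⊢
      refine ⟨hX' w w' hw hw' ?_ ?_ e.2, e.2⟩
      · intro a' b
        rw [h.sP w hw a' b b0, h.sP w' hw' a' b b0]
        exact congrFun e.1.1 ⟨a', Finset.mem_univ a'⟩
      · intro a' b hb hb'
        rw [h.sQ w hw a' a b, h.sQ w' hw' a' a b]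
        exact congrFun e.1.2 ⟨b, by
          rw [Finset.mem_compl, Finset.mem_insert, Finset.mem_singleton]
          rintro (h3 | h3)
          · exact hb h3
          · exact hb' h3⟩
  push_cast at h1
  linarith

omit [DecidableEq ιr] [DecidableEq ιc] in
/-- upper bound of the entropy of a pair -/
theorem num_pair_le (h : AR D l en E) (a : ιr) (b0 c c' : ιc) {χ : Type} (X : Λ → χ)
    (hX : ∀ w w', l w ≠ 0 → l w' ≠ 0 → X w = X w' → D.F (en a b0 w) = D.F (en a b0 w')) :
    CH l (fun w => (D.Q (en a c w), D.Q (en a c' w))) X ≤ 2 * CH D.μ D.Q D.F := by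
  have h1 := ch_pair_le l h.nn (fun w => D.Q (en a c w)) (fun w => D.Q (en a c' w)) X
  have h2 : ∀ b, CH l (fun w => D.Q (en a b w)) X ≤ CH D.μ D.Q D.F := by
    intro b
    rw [← h.CH_en a b D.Q D.F]
    apply ch_cond l h.nn
    intro w w' hw hw' e
    rw [h.sF w hw a b a b0, h.sF w' hw' a b a b0]
    exact hX w w' hw hw' e
  have h3 := h2 c
  have h4 := h2 c'
  linarith

/-- (`i3` of `AddN`, `h2` of `cls_sum`) -/
theorem num_i3 (h : AR D l en E) (a : ιr) (b0 : ιc) {c c' : ιc} (hc : c ≠ c') {χ : Type} (X : Λ → χ)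
    (hX' : ∀ w w', l w ≠ 0 → l w' ≠ 0 → (∀ a b, D.P (en a b w) = D.P (en a b w')) →
      (∀ a b, b ≠ c → b ≠ c' → D.Q (en a b w) = D.Q (en a b w')) → D.F (en a b0 w) = D.F (en a b0 w') →
        X w = X w') :
    CH l (fun w => (D.Q (en a c w), D.Q (en a c' w))) (fun w => D.F (en a b0 w)) -
      CH l (fun w => (D.Q (en a c w), D.Q (en a c' w))) (fun w => (X w, D.F (en a b0 w))) ≤ E := by
  have h1 := num_pair h a b0 hc X hX'
  have h2 := num_pair_le h a b0 c c' (fun w => D.F (en a b0 w)) (fun _ _ _ _ e => e)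
  linarith

/-- digits of two columns (`h3` of `cls_sum`) -/
theorem num_two (h : AR D l en E) (a : ιr) (b0 : ιc) {c c' : ιc} (hc : c ≠ c') {τ : Type} (t : β → τ) :
    2 * CH D.μ (fun ω => t (D.Q ω)) D.F - E ≤
      CH l (fun w => (t (D.Q (en a c w)), t (D.Q (en a c' w)))) (fun w => D.F (en a b0 w)) := by
  have h1 := num_pair h a b0 hc (fun _ => ()) (fun _ _ _ _ _ _ _ => rfl)
  have h2 : CH l (fun w => (D.Q (en a c w), D.Q (en a c' w))) (fun w => ((), D.F (en a b0 w))) =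
      CH l (fun w => (D.Q (en a c w), D.Q (en a c' w))) (fun w => D.F (en a b0 w)) := by
    apply ch_congr_right
    intro w w' _ _
    rw [Prod.mk.injEq]
    exact ⟨fun e => e.2, fun e => ⟨rfl, e⟩⟩
  rw [h2] at h1
  have h3 := ch_tri l h.nn (fun w => (D.Q (en a c w), D.Q (en a c' w)))
    (fun w => (t (D.Q (en a c w)), t (D.Q (en a c' w)))) (fun w => D.F (en a b0 w))
  have h4 := ch_pair_le l h.nn (fun w => D.Q (en a c w)) (fun w => D.Q (en a c' w))
    (fun w => ((t (D.Q (en a c w)), t (D.Q (en a c' w))), D.F (en a b0 w)))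
  have h5 : ∀ b, (∀ w w', (t (D.Q (en a c w)), t (D.Q (en a c' w))) = (t (D.Q (en a c w')), t (D.Q (en a c' w'))) →
      t (D.Q (en a b w)) = t (D.Q (en a b w'))) →
      CH l (fun w => D.Q (en a b w)) (fun w => ((t (D.Q (en a c w)), t (D.Q (en a c' w))), D.F (en a b0 w))) ≤
      CH D.μ D.Q D.F - CH D.μ (fun ω => t (D.Q ω)) D.F := by
    intro b hb
    have k1 : CH l (fun w => D.Q (en a b w))
        (fun w => ((t (D.Q (en a c w)), t (D.Q (en a c' w))), D.F (en a b0 w))) ≤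
        CH l (fun w => D.Q (en a b w)) (fun w => (t (D.Q (en a b w)), D.F (en a b w))) := by
      apply ch_cond l h.nn
      intro w w' hw hw' e
      rw [Prod.mk.injEq] at e ⊢
      refine ⟨hb w w' e.1, ?_⟩
      rw [h.sF w hw a b a b0, h.sF w' hw' a b a b0]
      exact e.2
    have k2 := h.CH_en a b D.Q (fun ω => (t (D.Q ω), D.F ω))
    have k3 := ch_chain D.μ (fun ω => t (D.Q ω)) D.Q D.F
    have k4 : CH D.μ (fun ω => (t (D.Q ω), D.Q ω)) D.F = CH D.μ D.Q D.F := by
      apply ch_congr_left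
      intro ω ω' _ _ _
      rw [Prod.mk.injEq]
      exact ⟨fun e => e.2, fun e => ⟨by rw [e], e⟩⟩
    linarith
  have h6 := h5 c (fun w w' e => (Prod.mk.inj e).1)
  have h7 := h5 c' (fun w w' e => (Prod.mk.inj e).2)
  linarith

omit [DecidableEq ιr] [DecidableEq ιc] in
/-- digits of one row (`i4` of `AddN`) -/
theorem num_one (h : AR D l en E) (a : ιr) (b0 b : ιc) {τ : Type} (t : α → τ) :
    CH l (fun w => t (D.P (en a b w))) (fun w => D.F (en a b0 w)) = CH D.μ (fun ω => t (D.P ω)) D.F := by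
  rw [← h.CH_en a b0 (fun ω => t (D.P ω)) D.F]
  apply ch_congr_left
  intro w w' hw hw' _
  show t (D.P (en a b w)) = t (D.P (en a b w')) ↔ t (D.P (en a b0 w)) = t (D.P (en a b0 w'))
  rw [h.sP w hw a b b0, h.sP w' hw' a b b0]

/-- `h1` of `cls_sum`: the glued centre of the first column and the pair -/
theorem cls_h1 (h : AR D l en E) (hm : mass D.μ = 1) {e3 : ℝ} (h3 : CH D.μ D.z3d D.F ≤ CH D.μ D.zd D.F + e3)
    (a : ιr) (b0 c c' : ιc) :
    CH l (fun w => D.z3d (en a c w)) (fun w => D.F (en a b0 w)) -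
      CH l (fun w => D.z3d (en a c w))
        (fun w => ((D.Q (en a c w), D.Q (en a c' w)), D.P (en a b0 w), D.F (en a b0 w))) ≤ E + N + e3 := by
  have h1 := num_z3 h hm e3 h3 a c b0 (fun w => ((D.Q (en a c w), D.Q (en a c' w)), D.P (en a b0 w)))
    (fun w w' hw hw' e => by
      simp only [Prod.mk.injEq] at e
      refine ⟨?_, e.1.1⟩
      rw [h.sP w hw a c b0, h.sP w' hw' a c b0]
      exact e.2)
    (fun w w' _ _ e1 e2 _ => by rw [e1 a b0, e2 a c, e2 a c'])
  have h2 : CH l (fun w => D.z3d (en a c w))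
      (fun w => (((D.Q (en a c w), D.Q (en a c' w)), D.P (en a b0 w)), D.F (en a b0 w))) =
      CH l (fun w => D.z3d (en a c w))
        (fun w => ((D.Q (en a c w), D.Q (en a c' w)), D.P (en a b0 w), D.F (en a b0 w))) := by
    apply ch_congr_right
    intro w w' _ _
    simp only [Prod.mk.injEq]
    tauto
  rw [h2] at h1
  exact h1

/-- the same for the second column -/
theorem cls_h1' (h : AR D l en E) (hm : mass D.μ = 1) {e3 : ℝ} (h3 : CH D.μ D.z3d D.F ≤ CH D.μ D.zd D.F + e3)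
    (a : ιr) (b0 c c' : ιc) :
    CH l (fun w => D.z3d (en a c' w)) (fun w => D.F (en a b0 w)) -
      CH l (fun w => D.z3d (en a c' w))
        (fun w => ((D.Q (en a c w), D.Q (en a c' w)), D.P (en a b0 w), D.F (en a b0 w))) ≤ E + N + e3 := by
  have h1 := num_z3 h hm e3 h3 a c' b0 (fun w => ((D.Q (en a c w), D.Q (en a c' w)), D.P (en a b0 w)))
    (fun w w' hw hw' e => by
      simp only [Prod.mk.injEq] at e
      refine ⟨?_, e.1.2⟩
      rw [h.sP w hw a c' b0, h.sP w' hw' a c' b0]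
      exact e.2)
    (fun w w' _ _ e1 e2 _ => by rw [e1 a b0, e2 a c, e2 a c'])
  have h2 : CH l (fun w => D.z3d (en a c' w))
      (fun w => (((D.Q (en a c w), D.Q (en a c' w)), D.P (en a b0 w)), D.F (en a b0 w))) =
      CH l (fun w => D.z3d (en a c' w))
        (fun w => ((D.Q (en a c w), D.Q (en a c' w)), D.P (en a b0 w), D.F (en a b0 w))) := by
    apply ch_congr_right
    intro w w' _ _
    simp only [Prod.mk.injEq]
    tauto
  rw [h2] at h1
  exact h1

/-- `h2` of `cls_sum` -/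
theorem cls_h2 (h : AR D l en E) (a : ιr) (b0 : ιc) {c c' : ιc} (hc : c ≠ c') :
    CH l (fun w => (D.Q (en a c w), D.Q (en a c' w))) (fun w => D.F (en a b0 w)) -
      CH l (fun w => (D.Q (en a c w), D.Q (en a c' w))) (fun w => (D.P (en a b0 w), D.F (en a b0 w))) ≤ E :=
  num_i3 h a b0 hc (fun w => D.P (en a b0 w)) (fun _ _ _ _ e1 _ _ => e1 a b0)

/-- `h3` of `cls_sum` -/
theorem cls_h3 (h : AR D l en E) (a : ιr) (b0 : ιc) {c c' : ιc} (hc : c ≠ c') {τ : Type} (t : β → τ) {m e : ℝ}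
    (hr : m - e ≤ CH D.μ (fun ω => t (D.Q ω)) D.F) :
    2 * m - (E + 2 * e) ≤ CH l (fun w => (t (D.Q (en a c w)), t (D.Q (en a c' w)))) (fun w => D.F (en a b0 w)) := by
  have h1 := num_two h a b0 hc t
  linarith

/-- the numbers of ADD for the pair of columns `(c, c')` and the row `a` -/
theorem addN_pair (h : AR D l en E) (hm : mass D.μ = 1) {e3 : ℝ} (h3 : CH D.μ D.z3d D.F ≤ CH D.μ D.zd D.F + e3)
    (a : ιr) (b0 : ιc) {c c' : ιc} (hc : c ≠ c') (τ : α → ℝ) {e4 : ℝ}
    (h4 : D.n - e4 ≤ CH D.μ (fun ω => fl D.n (τ (D.P ω))) D.F) :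
    Pool.Agent.Helper22.FW.AddN l (fun w => D.F (en a b0 w)) (fun w => (D.Q (en a c w), D.Q (en a c' w)))
      (fun w => D.P (en a b0 w)) (fun w => τ (D.P (en a b0 w))) (fun w => D.z3 (en a c' w))
      (fun w => D.z3 (en a c w)) D.n (E + N + e3) (E + N + e3) E e4 where
  i1 := cls_h1' h hm h3 a b0 c c'
  i2 := cls_h1 h hm h3 a b0 c c'
  i3 := cls_h2 h a b0 hc
  i4 := by
    have h1 := num_one h a b0 b0 (fun p => fl D.n (τ p))
    rw [← h1] at h4
    exact h4

/-- entropy of the second centre from the independence of both centres of the pair -/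
theorem ed_z3_le (D : ED Ω φ α β N) (h0 : ∀ ω, 0 ≤ D.μ ω) (hm : mass D.μ = 1) {e : ℝ}
    (hi : CH D.μ D.z3d D.F ≤ CH D.μ D.z3d (fun ω => ((D.P ω, D.Q ω), D.F ω)) + e) :
    CH D.μ D.z3d D.F ≤ CH D.μ D.zd D.F + (e + N) := by
  have h1 := ch_tri D.μ h0 D.z3d D.zd (fun ω => ((D.P ω, D.Q ω), D.F ω))
  have h2 := ch_vec D.μ h0 D.z3d (fun ω => (D.zd ω, ((D.P ω, D.Q ω), D.F ω))) 1 (by
    intro w w' hw hw' e i
    simp only [Prod.mk.injEq] at e
    obtain ⟨e1, ⟨e3, e4⟩, e5⟩ := e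
    have h3 := fl_lt D.n (congrFun e1 i)
    have h4 : D.z3 w i - D.z3 w' i = D.z w i - D.z w' i := by
      show D.z w i + D.om (D.P w) (D.Q w) i - (D.z w' i + D.om (D.P w') (D.Q w') i) = _
      rw [e3, e4]
      ring
    rw [← h4] at h3
    exact fl_near D.n 1 (by rw [Nat.cast_one]; exact h3))
  have h3 : (N : ℝ) * Real.logb 2 (((1 : ℕ) : ℝ) + 1) * mass D.μ = N := by
    rw [hm, mul_one]
    have : ((1 : ℕ) : ℝ) + 1 = 2 := by norm_num
    rw [this, Real.logb_self_eq_one (by norm_num), mul_one]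
  rw [h3] at h2
  have h4 : CH D.μ D.zd (fun ω => ((D.P ω, D.Q ω), D.F ω)) ≤ CH D.μ D.zd D.F := by
    apply ch_cond D.μ h0
    intro w w' _ _ e
    exact (Prod.mk.inj e).2
  linarith

end num

end Pool.Agent.Helper18.FW
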