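import Pool.Agent.Helper61.FW.Se
import Pool.Agent.Helper61.FW.Sf
import Pool.Agent.Helper61.GL.Push
import Pool.Agent.Helper70.FW.Top
import Pool.Agent.Helper18.VS.Fin2

/-! Theorem FW: START/END for most values of a label: finite form from the fields of `Edg`. -/

set_option autoImplicit false

namespace Pool.Agent.Helper18.FW

open Finset Pool.Agent.Helper69.RK Pool.Agent.Helper92.W Pool.Agent.Helper46.WF Pool.Agent.Helper61.EC
  Pool.Agent.Helper61.FW Pool.Agent.Helper70.FW
open Pool.Agent.Helper61.GL hiding fl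

noncomputable section

variable {Ω Ω' φ χ α : Type} [Fintype Ω] [Fintype Ω'] {N n : ℕ}

/-- all projections of the law are full up to `d` bits -/
def GoodS (N n : ℕ) (d : ℝ) (w : Ω → ℝ) (z : Ω → Fin N → ℝ) : Prop :=
  ∀ (a : Fin N) (v : Fin N → ℝ), v a = 1 → (∀ i, |v i| ≤ 1) →
    ((N : ℝ) - 1) * n - d ≤ Hh w (fun ω => vfl n fun i => z ω i - v i * z ω a)

/-- the law has the deficit `ρ` at all levels up to `e` bits -/
def GoodE (N n : ℕ) (ρ e : ℝ) (w : Ω → ℝ) (z : Ω → Fin N → ℝ) : Prop :=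
  ∀ k ≤ n, Hh w (fun ω => vfl k (z ω)) ≤ ((N : ℝ) - ρ) * k + e

theorem Pw_ind (w : Ω → ℝ) (A : Ω → Prop) (g : Ω → ℝ) (h1 : ∀ ω, A ω → g ω = 1) (h0 : ∀ ω, ¬ A ω → g ω = 0) :
    Pw w A = ∑ ω, w ω * g ω := by
  classical
  unfold Pw
  refine Finset.sum_congr rfl fun ω _ => ?_
  by_cases h : A ω
  · rw [if_pos h, h1 ω h, mul_one]
  · rw [if_neg h, h0 ω h, mul_zero]

/-- the mean of the conditional probabilities of an event -/
theorem Pw_avg (μ : Ω → ℝ) (μ' : Ω' → ℝ) (π : Ω' → Ω) (hμ' : ∀ ω, 0 ≤ μ' ω) (hpi : push π μ' = μ) (X : Ω' → χ)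
    (B : Ω → Prop) : ∑ ω, μ' ω * Pw (cw μ' X ω) (fun ω' => B (π ω')) = Pw μ B := by
  classical
  set g : Ω → ℝ := fun ω => if B ω then 1 else 0 with hg
  have h1 : ∀ ω, B ω → g ω = 1 := fun ω h => if_pos h
  have h0 : ∀ ω, ¬ B ω → g ω = 0 := fun ω h => if_neg h
  have h3 := push_sum π μ' g
  rw [hpi] at h3
  rw [Pw_ind μ B g h1 h0, h3, ← sum_cw μ' hμ' X (fun ω' => g (π ω'))]
  refine Finset.sum_congr rfl fun ω _ => ?_
  rw [Pw_ind (cw μ' X ω) (fun ω' => B (π ω')) (fun ω' => g (π ω')) (fun ω' h => h1 _ h) (fun ω' h => h0 _ h)]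

omit [Fintype Ω] in
/-- the fibres of a label have full projections -/
theorem most_start {εQ ηQ : ℝ} (μ : Ω → ℝ) (F : Ω → φ) (z : Ω → Fin N → ℝ) (hQ : QuoF N n εQ ηQ μ F z)
    (hz : ∀ ω i, |z ω i| ≤ 1) (μ' : Ω' → ℝ) (π : Ω' → Ω) (hμ' : ∀ ω, 0 ≤ μ' ω) (hm : mass μ' = 1)
    (hpi : push π μ' = μ) (X : Ω' → χ)
    (hI : CH μ' (fun ω => vfl n (z (π ω))) (fun ω => F (π ω)) ≤
      CH μ' (fun ω => vfl n (z (π ω))) (fun ω => (X ω, F (π ω))) + ηQ * n) (d : ℝ) (hd : 0 ≤ d) :
    d * Pw μ' (fun ω => ¬ GoodS N n d (cw μ' (fun ω => (X ω, F (π ω))) ω) (fun ω' => z (π ω'))) ≤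
      N * (εQ * n + 3 * (N - 1)) := by
  classical
  set G : Ω' → χ × φ := fun ω => (X ω, F (π ω)) with hG
  set E : Fin N → Ω' → Prop := fun a ω => ∃ w : Fin N → ℝ, w a = 1 ∧ (∀ i, |w i| ≤ 1) ∧
    Hh (cw μ' G ω) (fun ω' i => fl n (z (π ω') i - w i * z (π ω') a)) < ((N : ℝ) - 1) * n - d with hE
  have hcw : ∀ ω ω', 0 ≤ cw μ' G ω ω' := fun ω ω' => cw_nonneg _ _ hμ' ω ω'
  have key : ∀ a, d * Pw μ' (E a) ≤ εQ * n + 3 * (N - 1) := by
    intro a
    set W : Ω' → Fin N → ℝ := fun ω => WW a (fun ω' => z (π ω')) n (((N : ℝ) - 1) * n - d) (cw μ' G ω) with hW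
    have hWc : ∀ ω ω', G ω = G ω' → W ω = W ω' := by
      intro ω ω' h
      have h6 : cw μ' G ω = cw μ' G ω' := by
        funext b
        exact cw_congr _ _ h b
      show WW a _ _ _ (cw μ' G ω) = WW a _ _ _ (cw μ' G ω')
      rw [h6]
    have h1 := hQ Ω' inferInstance μ' π hμ' hpi χ X W a (fun ω => WW_a _ _ _ _ _) (fun ω i => WW_abs _ _ _ _ _ i)
      (fun ω ω' _ _ e1 e2 => hWc ω ω' (Prod.ext e1 e2)) hI
    have hN1 : (0 : ℝ) ≤ (N : ℝ) - 1 := by
      have : 1 ≤ N := by
        have := a.2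
        omega
      have h5 : (1 : ℝ) ≤ N := by exact_mod_cast this
      linarith
    have h2 : CH μ' (fun ω => vfl n fun i => z (π ω) i - W ω i * z (π ω) a) G ≤
        ((N : ℝ) - 1) * (n + 3) - d * Pw μ' (E a) := by
      rw [CH_disint _ hμ']
      have e1 : ∀ ω, μ' ω * Hh (cw μ' G ω) (fun ω => vfl n fun i => z (π ω) i - W ω i * z (π ω) a) ≤
          μ' ω * (((N : ℝ) - 1) * (n + 3)) - d * (if E a ω then μ' ω else 0) := by
        intro ω
        by_cases h0 : μ' ω = 0
        · rw [h0]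
          simp
        · have h6 : Hh (cw μ' G ω) (fun ω => vfl n fun i => z (π ω) i - W ω i * z (π ω) a) =
              Hh (cw μ' G ω) (fun ω' i => fl n (z (π ω') i - W ω i * z (π ω') a)) := by
            apply ch_congr_left
            intro b b' hb1 hb2 _
            have g1 := hWc b ω (cw_ne_zero _ _ hb1).1
            have g2 := hWc b' ω (cw_ne_zero _ _ hb2).1
            rw [g1, g2]
            exact Iff.rfl
          by_cases hb : E a ω
          · rw [if_pos hb]
            have h5 := WW_lt a (fun ω' => z (π ω')) n (((N : ℝ) - 1) * n - d) (cw μ' G ω) hb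
            have h7 : Hh (cw μ' G ω) (fun ω => vfl n fun i => z (π ω) i - W ω i * z (π ω) a) ≤
                ((N : ℝ) - 1) * (n + 3) - d := by
              rw [h6]
              refine h5.le.trans ?_
              linarith
            calc _ ≤ μ' ω * (((N : ℝ) - 1) * (n + 3) - d) := mul_le_mul_of_nonneg_left h7 (hμ' ω)
              _ = _ := by ring
          · rw [if_neg hb, mul_zero, sub_zero]
            apply mul_le_mul_of_nonneg_left _ (hμ' ω)
            rw [h6]
            have h8 := proj_card (cw μ' G ω) (hcw ω) (cw_sum _ _ hμ' ω h0) a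
              (fun ω' i => z (π ω') i - W ω i * z (π ω') a) n (fun ω' i => by
                refine (abs_sub _ _).trans ?_
                rw [abs_mul]
                have h9 := mul_le_one₀ (WW_abs a (fun ω' => z (π ω')) n (((N : ℝ) - 1) * n - d) (cw μ' G ω) i)
                  (abs_nonneg _) (hz (π ω') a)
                have h10 := hz (π ω') i
                linarith) (fun b _ => by
                have : W ω a = 1 := WW_a _ _ _ _ _
                rw [this, one_mul, sub_self])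
            exact h8
      refine (Finset.sum_le_sum fun ω _ => e1 ω).trans (le_of_eq ?_)
      rw [Finset.sum_sub_distrib, ← Finset.sum_mul, ← Finset.mul_sum]
      have e2 : ∑ ω, μ' ω = 1 := hm
      rw [e2, one_mul]
      unfold Pw
      congr 2
    have h3 := h1.trans h2
    linarith
  have h1 : Pw μ' (fun ω => ¬ GoodS N n d (cw μ' G ω) (fun ω' => z (π ω'))) ≤ ∑ a, Pw μ' (E a) := by
    refine (Pw_mono μ' hμ' (B := fun ω => ∃ a, E a ω) ?_).trans (Pw_ex μ' hμ' E)
    intro ω _ h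
    unfold GoodS at h
    push Not at h
    obtain ⟨a, v, h1, h2, h3⟩ := h
    exact ⟨a, v, h1, h2, h3⟩
  calc d * Pw μ' (fun ω => ¬ GoodS N n d (cw μ' G ω) (fun ω' => z (π ω'))) ≤
        d * ∑ a, Pw μ' (E a) := mul_le_mul_of_nonneg_left h1 hd
    _ = ∑ a, d * Pw μ' (E a) := by rw [Finset.mul_sum]
    _ ≤ ∑ _a : Fin N, (εQ * n + 3 * (N - 1)) := Finset.sum_le_sum fun a _ => key a
    _ = N * (εQ * n + 3 * (N - 1)) := by
      rw [Finset.sum_const, Finset.card_univ, Fintype.card_fin, nsmul_eq_mul]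

/-- entropy of a part of a law is at most the cross entropy -/
theorem cross_le {β : Type} (μ : Ω → ℝ) (hμ : ∀ ω, 0 ≤ μ ω) (f : Ω → α) (F : Ω → β) (w : Ω → ℝ)
    (hw : ∀ ω, 0 ≤ w ω) (c : β) (hF : ∀ ω, w ω ≠ 0 → F ω = c ∧ μ ω ≠ 0) :
    Hh w f ≤ ∑ ω, w ω * srp μ f F ω := by
  classical
  by_cases hne : ∃ ω0, w ω0 ≠ 0
  swap
  · push Not at hne
    have h1 : Hh w f = 0 := by
      unfold Hh CH
      apply Finset.sum_eq_zero
      intro ω _
      rw [hne ω, zero_mul]
    rw [h1]
    apply le_of_eq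
    symm
    apply Finset.sum_eq_zero
    intro ω _
    rw [hne ω, zero_mul]
  obtain ⟨ω0, h0⟩ := hne
  have hp : 0 < pr μ F ω0 := e1_pr_pos μ F hμ ω0 (hF ω0 h0).2
  set r : Unit → α → ℝ := fun _ x => (∑ ω', if f ω' = x ∧ F ω' = c then μ ω' else 0) / pr μ F ω0 with hr
  have e0 : ∀ ω, w ω ≠ 0 → r () (f ω) = pr μ (fun ω' => (f ω', F ω')) ω / pr μ F ω := by
    intro ω h1
    have e1 : pr μ F ω = pr μ F ω0 := e1_pr_atom μ F ω ω0 ((hF ω h1).1.trans (hF ω0 h0).1.symm)
    rw [hr, e1]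
    simp only
    rw [e1_pr_eq]
    congr 1
    refine Finset.sum_congr rfl fun ω' _ => ?_
    rw [Prod.mk.injEq, (hF ω h1).1]
    by_cases hh : f ω' = f ω ∧ F ω' = c
    · rw [if_pos hh, if_pos hh]
    · rw [if_neg hh, if_neg hh]
  have h1 := ch_gibbs w hw f (fun _ => ()) r (fun ω h1 => by
      show 0 < r () (f ω)
      rw [e0 ω h1]
      exact div_pos (e1_pr_pos μ _ hμ ω (hF ω h1).2) (e1_pr_pos μ _ hμ ω (hF ω h1).2))
    (fun _ x => div_nonneg (Finset.sum_nonneg fun ω' _ => by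
      split_ifs
      · exact hμ ω'
      · exact le_rfl) hp.le)
    (fun _ S => by
      show ∑ x ∈ S, (∑ ω', if f ω' = x ∧ F ω' = c then μ ω' else 0) / pr μ F ω0 ≤ 1
      rw [← Finset.sum_div, div_le_one hp, Finset.sum_comm, e1_pr_eq]
      refine Finset.sum_le_sum fun ω' _ => ?_
      by_cases h2 : F ω' = c
      · rw [if_pos (h2.trans (hF ω0 h0).1.symm)]
        rw [← Finset.sum_filter]
        by_cases h3 : f ω' ∈ S
        · have e2 : S.filter (fun x => f ω' = x ∧ F ω' = c) = {f ω'} := by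
            ext x
            rw [Finset.mem_filter, Finset.mem_singleton]
            constructor
            · rintro ⟨_, h4, _⟩
              exact h4.symm
            · rintro rfl
              exact ⟨h3, rfl, h2⟩
          rw [e2, Finset.sum_singleton]
        · have e2 : S.filter (fun x => f ω' = x ∧ F ω' = c) = ∅ := by
            apply Finset.filter_eq_empty_iff.mpr
            rintro x hx ⟨h4, _⟩
            exact h3 (h4 ▸ hx)
          rw [e2, Finset.sum_empty]
          exact hμ ω'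
      · have e2 : ∑ x ∈ S, (if f ω' = x ∧ F ω' = c then μ ω' else 0) = 0 := by
          apply Finset.sum_eq_zero
          intro x _
          rw [if_neg (fun h => h2 h.2)]
        rw [e2]
        split_ifs
        · exact hμ ω'
        · exact le_rfl)
  unfold Hh
  refine h1.trans (le_of_eq ?_)
  rw [← Finset.sum_neg_distrib]
  refine Finset.sum_congr rfl fun ω _ => ?_
  by_cases h2 : w ω = 0
  · rw [h2]
    simp
  · rw [e0 ω h2, Real.logb_div (e1_pr_pos μ _ hμ ω (hF ω h2).2).ne' (e1_pr_pos μ _ hμ ω (hF ω h2).2).ne']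
    unfold srp
    ring

/-- the number of cells of a vector of the unit box -/
theorem cell_card (w : Ω → ℝ) (hw : ∀ ω, 0 ≤ w ω) (z : Ω → Fin N → ℝ) (hz : ∀ ω i, |z ω i| ≤ 1) (k : ℕ) :
    Hh w (fun ω => vfl k (z ω)) ≤ N * (k + 2) * mass w := by
  have h1 := ch_pi_sum w hw (fun (i : Fin N) ω => fl k (z ω i)) (fun _ => ())
  refine h1.trans ?_
  calc ∑ i : Fin N, CH w (fun ω => fl k (z ω i)) (fun _ => ()) ≤ ∑ _i : Fin N, ((k : ℝ) + 2) * mass w := by
        refine Finset.sum_le_sum fun i _ => ?_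
        have h3 := ch_int w hw (fun ω => fl k (z ω i)) (fun _ => ()) (2 * 2 ^ k + 1) (by positivity) (by
          intro ω ω' _ _ _
          refine (fl_sub_le k _ _).trans ?_
          have h4 : |z ω i - z ω' i| ≤ 2 := by
            refine (abs_sub _ _).trans ?_
            linarith [hz ω i, hz ω' i]
          have h5 : (0 : ℝ) < 2 ^ k := by positivity
          nlinarith)
        refine h3.trans ?_
        have hm : 0 ≤ mass w := Finset.sum_nonneg fun ω _ => hw ω
        apply mul_le_mul_of_nonneg_right _ hm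
        have h6 : (2 * 2 ^ k + 1 + 1 : ℝ) ≤ 2 ^ (k + 2) := by
          have h7 : (1 : ℝ) ≤ 2 ^ k := one_le_pow₀ (by norm_num)
          rw [pow_add]
          linarith
        calc Real.logb 2 (2 * 2 ^ k + 1 + 1) ≤ Real.logb 2 (2 ^ (k + 2)) :=
              Real.logb_le_logb_of_le (by norm_num) (by positivity) h6
          _ = (k : ℝ) + 2 := by
              rw [Real.logb_pow, Real.logb_self_eq_one (by norm_num)]
              push_cast
              ring
    _ = N * (k + 2) * mass w := by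
        rw [Finset.sum_const, Finset.card_univ, Fintype.card_fin, nsmul_eq_mul]
        ring

/-- entropy of a law with an exceptional event -/
theorem Hh_split (w : Ω → ℝ) (hw : ∀ ω, 0 ≤ w ω) (hm : mass w = 1) (f : Ω → α) (B : Ω → Prop) :
    Hh w f ≤ 1 + Hh (res w (fun ω => ¬ B ω)) f + Hh (res w B) f := by
  classical
  have h1 := ch_tri w hw f (fun ω => if B ω then (0 : ℤ) else 1) (fun _ => ())
  have h2 := ch_int w hw (fun ω => if B ω then (0 : ℤ) else 1) (fun _ => ()) 1 zero_le_one (by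
    intro ω ω' _ _ _
    by_cases a : B ω <;> by_cases b : B ω' <;> simp [a, b])
  rw [hm, mul_one] at h2
  have h3 : Real.logb 2 (1 + 1) = 1 := by
    rw [show (1 : ℝ) + 1 = 2 by norm_num, Real.logb_self_eq_one (by norm_num)]
  rw [h3] at h2
  have h4 := Pool.Agent.Helper18.VS.ch_part w f (fun ω => ((if B ω then (0 : ℤ) else 1), ()))
    (fun ω => decide (B ω)) (by
      intro ω ω' _ _ h
      by_cases a : B ω <;> by_cases b : B ω' <;> simp [a, b] at h ⊢)
  have h5 : CH w f (fun ω => ((if B ω then (0 : ℤ) else 1), ())) =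
      Hh (res w B) f + Hh (res w (fun ω => ¬ B ω)) f := by
    rw [h4, Fintype.sum_bool]
    congr 1
    · have e2 : (fun ω => decide (B ω) = true) = B := by
        funext ω
        by_cases a : B ω <;> simp [a]
      rw [e2]
      apply ch_congr_right
      intro ω ω' a b
      have a1 : B ω := by
        by_contra hc
        apply a
        unfold res
        rw [if_neg hc]
      have b1 : B ω' := by
        by_contra hc
        apply b
        unfold res
        rw [if_neg hc]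
      simp [a1, b1]
    · have e2 : (fun ω => decide (B ω) = false) = fun ω => ¬ B ω := by
        funext ω
        by_cases a : B ω <;> simp [a]
      rw [e2]
      apply ch_congr_right
      intro ω ω' a b
      have a1 : ¬ B ω := by
        intro hc
        apply a
        unfold res
        rw [if_neg (not_not.mpr hc)]
      have b1 : ¬ B ω' := by
        intro hc
        apply b
        unfold res
        rw [if_neg (not_not.mpr hc)]
      simp [a1, b1]
  unfold Hh at h5 ⊢
  linarith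

/-- the fibres of a label finer than the base have the deficit: END -/
theorem most_end {ρ η : ℝ} (μ : Ω → ℝ) (F : Ω → φ) (z : Ω → Fin N → ℝ)
    (hz : ∀ ω i, |z ω i| ≤ 1)
    (hU : Pw μ (fun ω => ∃ k ≤ n, (N - ρ) * k + η * n < srp μ (fun ω' => vfl k (z ω')) F ω) ≤ η)
    (hρ : ρ ≤ N) (hη : 0 ≤ η)
    (μ' : Ω' → ℝ) (π : Ω' → Ω) (hμ' : ∀ ω, 0 ≤ μ' ω) (hpi : push π μ' = μ) (X : Ω' → χ)
    (hX : ∀ ω ω', μ' ω ≠ 0 → μ' ω' ≠ 0 → X ω = X ω' → F (π ω) = F (π ω')) (t : ℝ) (ht : 0 < t) :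
    t * Pw μ' (fun ω => ¬ GoodE N n ρ (η * n + 1 + t * (N * (n + 2))) (cw μ' X ω) (fun ω' => z (π ω'))) ≤ η := by
  classical
  set B : Ω → Prop := fun ω => ∃ k ≤ n, (N - ρ) * k + η * n < srp μ (fun ω' => vfl k (z ω')) F ω with hB
  have h1 := Pw_avg μ μ' π hμ' hpi X B
  have h2 := Pw_markov μ' hμ' (fun ω => Pw (cw μ' X ω) (fun ω' => B (π ω')))
    (fun ω _ => Pw_nonneg _ (fun ω' => cw_nonneg _ _ hμ' ω ω') _) ht (h1.le.trans hU)
  rw [le_div_iff₀ ht] at h2
  refine le_trans ?_ h2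
  rw [mul_comm]
  apply mul_le_mul_of_nonneg_right _ ht.le
  apply Pw_mono μ' hμ'
  intro ω h0 hbad
  by_contra hc
  rw [not_lt] at hc
  apply hbad
  intro k hk
  set w := cw μ' X ω with hw
  have hw0 : ∀ ω', 0 ≤ w ω' := fun ω' => cw_nonneg _ _ hμ' ω ω'
  have hwm : mass w = 1 := cw_sum _ _ hμ' ω h0
  have hres : ∀ (E : Ω' → Prop) ω', 0 ≤ res w E ω' := by
    intro E ω'
    unfold res
    split_ifs
    · exact hw0 ω'
    · exact le_rfl
  have e1 := Hh_split w hw0 hwm (fun ω' => vfl k (z (π ω'))) (fun ω' => B (π ω'))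
  have e2 := cell_card (res w (fun ω' => B (π ω'))) (hres _) (fun ω' => z (π ω')) (fun ω' i => hz (π ω') i) k
  have e3 : mass (res w (fun ω' => B (π ω'))) ≤ t := by
    rw [← Pool.Agent.Helper61.EC.Pw_eq]
    exact hc
  have e4 := cross_le μ' hμ' (fun ω' => vfl k (z (π ω'))) (fun ω' => F (π ω')) (res w (fun ω' => ¬ B (π ω')))
    (hres _) (F (π ω)) (by
      intro ω' h1
      have h3 : w ω' ≠ 0 := by
        intro h4
        apply h1
        unfold res
        rw [h4]
        exact ite_self 0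
      obtain ⟨g1, g2⟩ := cw_ne_zero μ' X h3
      exact ⟨hX ω' ω g2 h0 g1, g2⟩)
  have e5 : ∑ ω', res w (fun ω' => ¬ B (π ω')) ω' *
      srp μ' (fun ω' => vfl k (z (π ω'))) (fun ω' => F (π ω')) ω' ≤ (N - ρ) * k + η * n := by
    have g0 : 0 ≤ (N - ρ) * k + η * n := by
      have : 0 ≤ (N : ℝ) - ρ := by linarith
      positivity
    have g1 : ∀ ω', res w (fun ω' => ¬ B (π ω')) ω' *
        srp μ' (fun ω' => vfl k (z (π ω'))) (fun ω' => F (π ω')) ω' ≤ w ω' * ((N - ρ) * k + η * n) := by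
      intro ω'
      by_cases hb : B (π ω')
      · have : res w (fun ω' => ¬ B (π ω')) ω' = 0 := by
          unfold res
          rw [if_neg (not_not.mpr hb)]
        rw [this, zero_mul]
        exact mul_nonneg (hw0 ω') g0
      · have : res w (fun ω' => ¬ B (π ω')) ω' = w ω' := by
          unfold res
          rw [if_pos hb]
        rw [this]
        apply mul_le_mul_of_nonneg_left _ (hw0 ω')
        have g2 : srp μ' (fun ω' => vfl k (z (π ω'))) (fun ω' => F (π ω')) ω' =
            srp μ (fun ω' => vfl k (z ω')) F (π ω') := by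
          unfold srp
          rw [← hpi, push_pr, push_pr]
        rw [g2]
        by_contra hlt
        rw [not_le] at hlt
        exact hb ⟨k, hk, hlt⟩
    refine (Finset.sum_le_sum fun ω' _ => g1 ω').trans ?_
    rw [← Finset.sum_mul]
    have : ∑ ω', w ω' = 1 := hwm
    rw [this, one_mul]
  have e6 : (N : ℝ) * (k + 2) * mass (res w (fun ω' => B (π ω'))) ≤ t * (N * (n + 2)) := by
    have hk' : (k : ℝ) ≤ n := by exact_mod_cast hk
    have hN : (0 : ℝ) ≤ N := Nat.cast_nonneg N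
    calc (N : ℝ) * (k + 2) * mass (res w (fun ω' => B (π ω'))) ≤ (N : ℝ) * (k + 2) * t :=
          mul_le_mul_of_nonneg_left e3 (by positivity)
      _ ≤ (N : ℝ) * (n + 2) * t := by
          apply mul_le_mul_of_nonneg_right _ ht.le
          apply mul_le_mul_of_nonneg_left _ hN
          linarith
      _ = t * (N * (n + 2)) := by ring
  linarith

open Pool.Agent.Helper78.FW Pool.Agent.Helper15.VW

/-- START for a law with full projections -/
theorem GoodS.start {w : Ω → ℝ} (hw : ∀ ω, 0 ≤ w ω) (hm : mass w = 1) {z : Ω → Fin N → ℝ} {d : ℝ}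
    (h : GoodS N n d w z) {r : ℝ} (hr : (1 / 2 : ℝ) ^ n ≤ r) (Z : Multiset (Fin N → ℝ))
    (hZ : fam (flr (N := N) r) ≤ Z) (v : Fin N → ℝ) (hv : v ∈ Z) (c : Fin N) (hc : v c ≠ 0) :
    Real.logb 2 |v c| - (d + N * Real.logb 2 (2 * (1 + 2 * (N * 1)))) ≤ SZ w z (fun _ => ()) Z :=
  sz_start w hw hm z (fun _ => ()) n d r (fun a v h1 h2 => h a v h1 h2) hr Z hZ v hv c hc

/-- END for a law with deficit -/
theorem GoodE.fin {w : Ω → ℝ} (hw : ∀ ω, 0 ≤ w ω) (hm : mass w = 1) {z : Ω → Fin N → ℝ} {ρ e : ℝ}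
    (h : GoodE N n ρ e w z) {j : ℕ} (hj : j ≤ n) :
    SZ w z (fun _ => ()) (fam (flr (N := N) ((1 / 2) ^ j))) ≤
      -(ρ * j) + (e + N * Real.logb 2 (2 * (1 + 2 * (N * 1)))) :=
  sz_end w hw hm z (fun _ => ()) j ρ e (h j hj)

end

end Pool.Agent.Helper18.FW
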