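import Pool.Agent.Helper18.FW.Mx
import Pool.Agent.Helper18.FW.Num

/-! START and END for most values of a label of the array, in the shape of `pathG` (FW, row NUM-C). -/

set_option autoImplicit false

namespace Pool.Agent.Helper18.FW

open Finset Pool.Agent.Helper69.RK Pool.Agent.Helper92.W Pool.Agent.Helper46.WF Pool.Agent.Helper61.EC
  Pool.Agent.Helper61.FW Pool.Agent.Helper70.FW Pool.Agent.Helper78.FW Pool.Agent.Helper25.FA
open Pool.Agent.Helper61.GL hiding fl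
open Pool.Agent.Helper15.VW (SZ)

noncomputable section

section gen

variable {Ω δ δ' : Type} [Fintype Ω]

/-- conditional laws of equivalent labels -/
theorem cw_lab (μ : Ω → ℝ) (G : Ω → δ) (G' : Ω → δ')
    (h : ∀ ω ω', μ ω ≠ 0 → μ ω' ≠ 0 → (G ω = G ω' ↔ G' ω = G' ω')) {ω : Ω} (h0 : μ ω ≠ 0) :
    cw μ G ω = cw μ G' ω := by
  classical
  have h1 : ∀ ω', (if G ω' = G ω then μ ω' else 0) = (if G' ω' = G' ω then μ ω' else 0) := by
    intro ω'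
    by_cases h2 : μ ω' = 0
    · rw [h2]
      split_ifs <;> rfl
    · by_cases h3 : G ω' = G ω
      · rw [if_pos h3, if_pos ((h ω' ω h2 h0).1 h3)]
      · rw [if_neg h3, if_neg (fun e => h3 ((h ω' ω h2 h0).2 e))]
  funext ω'
  unfold cw
  rw [h1 ω', e1_pr_eq, e1_pr_eq]
  congr 1
  exact Finset.sum_congr rfl fun x _ => h1 x

end gen

/-- the constant of START and END -/
def cSE (N : ℕ) : ℝ := N * Real.logb 2 (2 * (1 + 2 * (N * 1)))

theorem cSE_nonneg (N : ℕ) : 0 ≤ cSE N := by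
  unfold cSE
  apply mul_nonneg (Nat.cast_nonneg N)
  apply Real.logb_nonneg (by norm_num)
  have : (0 : ℝ) ≤ N := Nat.cast_nonneg N
  linarith

/-- START and END for one law, in the shape of `pathG` -/
def SEok {Ω : Type} [Fintype Ω] (N F : ℕ) (s E : ℝ) (w : Ω → ℝ) (z : Ω → Fin N → ℝ) : Prop :=
  (∀ Z : Multiset (Fin N → ℝ), fam (flr (N := N) ((1 / 2) ^ F)) ≤ Z → ∀ v ∈ Z, ∀ c, v c ≠ 0 →
    Real.logb 2 |v c| - s ≤ SZ w z (fun _ => ()) Z) ∧ SZ w z (fun _ => ()) (fam (flr (N := N) ((1 / 2) ^ F))) ≤ -E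

section arr

variable {Ω φ α β : Type} [Fintype Ω] {N : ℕ} {D : ED Ω φ α β N} {Λ ιr ιc : Type} [Fintype Λ] [Fintype ιr]
  [Fintype ιc] [DecidableEq ιr] [DecidableEq ιc] {l : Λ → ℝ} {en : ιr → ιc → Λ → Ω} {E : ℝ}

/-- START and END for most fibres of a label of the vertices -/
theorem se_array (h : AR D l en E) (hm : mass D.μ = 1) (a0 : ιr) (b0 : ιc) {ρ η εQ ηQ : ℝ}
    (hz : ∀ ω i, |D.z ω i| ≤ 1) (hρ : ρ ≤ N) (hη : 0 ≤ η)
    (hU : Pw D.μ (fun ω => ∃ k ≤ D.n, (N - ρ) * k + η * D.n < srp D.μ (fun ω' => vfl k (D.z ω')) D.F ω) ≤ η)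
    (hQ : QuoF N D.n εQ ηQ D.μ D.F D.z) {χ : Type} (X : Λ → χ)
    (hX : ∀ w w', l w ≠ 0 → l w' ≠ 0 → (∀ a b, D.P (en a b w) = D.P (en a b w')) →
      (∀ a b, D.Q (en a b w) = D.Q (en a b w')) → D.F (en a0 b0 w) = D.F (en a0 b0 w') → X w = X w')
    (hXF : ∀ w w', l w ≠ 0 → l w' ≠ 0 → X w = X w' → D.F (en a0 b0 w) = D.F (en a0 b0 w'))
    (hE : E ≤ ηQ * D.n) {F : ℕ} (hF : F ≤ D.n) {d t : ℝ} (hd : 0 < d) (ht : 0 < t) :
    Pw l (fun w => ¬ SEok N F (d + cSE N) (ρ * F - (η * D.n + 1 + t * (N * (D.n + 2)) + cSE N)) (cw l X w)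
      (fun w' => D.z (en a0 b0 w'))) ≤ N * (εQ * D.n + 3 * (N - 1)) / d + η / t := by
  classical
  have hml : mass l = 1 := by
    rw [← Pool.Agent.Helper6.VS.push_mass (en a0 b0) l h.nn, h.pu a0 b0, hm]
  have h1 := most_start D.μ D.F D.z hQ hz l (en a0 b0) h.nn hml (h.pu a0 b0) X
    ((num_Z h a0 b0 X hX).trans (by
      have : CH l (fun w => D.zd (en a0 b0 w)) (fun w => (X w, D.F (en a0 b0 w))) =
        CH l (fun w => vfl D.n (D.z (en a0 b0 w))) (fun w => (X w, D.F (en a0 b0 w))) := rfl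
      rw [this]
      linarith)) d hd.le
  have h2 := most_end (n := D.n) (ρ := ρ) (η := η) D.μ D.F D.z hz hU hρ hη l (en a0 b0) h.nn (h.pu a0 b0) X hXF t ht
  have e1 : ∀ w, l w ≠ 0 → cw l (fun w => (X w, D.F (en a0 b0 w))) w = cw l X w := by
    intro w hw
    apply cw_lab l _ _ _ hw
    intro w w' a b
    rw [Prod.mk.injEq]
    exact ⟨fun e => e.1, fun e => ⟨e, hXF w w' a b e⟩⟩
  have h3 : Pw l (fun w => ¬ SEok N F (d + cSE N) (ρ * F - (η * D.n + 1 + t * (N * (D.n + 2)) + cSE N)) (cw l X w)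
      (fun w' => D.z (en a0 b0 w'))) ≤
      Pw l (fun w => ¬ GoodS N D.n d (cw l (fun w => (X w, D.F (en a0 b0 w))) w) (fun w' => D.z (en a0 b0 w'))) +
      Pw l (fun w => ¬ GoodE N D.n ρ (η * D.n + 1 + t * (N * (D.n + 2))) (cw l X w)
        (fun w' => D.z (en a0 b0 w'))) := by
    refine (Pw_mono l h.nn ?_).trans (Pw_or l h.nn _ _)
    intro w hw hbad
    by_contra hc
    rw [not_or, not_not, not_not] at hc
    obtain ⟨g1, g2⟩ := hc
    rw [e1 w hw] at g1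
    have hcw : ∀ w', 0 ≤ cw l X w w' := fun w' => cw_nonneg _ _ h.nn w w'
    have hcm : mass (cw l X w) = 1 := cw_sum _ _ h.nn w hw
    apply hbad
    constructor
    · intro Z hZ v hv c hc
      refine g1.start hcw hcm ?_ Z hZ v hv c hc
      exact pow_le_pow_of_le_one (by norm_num) (by norm_num) hF
    · have g3 := g2.fin hcw hcm hF
      unfold cSE
      linarith
  have h4 : Pw l (fun w => ¬ GoodS N D.n d (cw l (fun w => (X w, D.F (en a0 b0 w))) w)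
      (fun w' => D.z (en a0 b0 w'))) ≤ N * (εQ * D.n + 3 * (N - 1)) / d := by
    rw [le_div_iff₀ hd, mul_comm]
    exact h1
  have h5 : Pw l (fun w => ¬ GoodE N D.n ρ (η * D.n + 1 + t * (N * (D.n + 2))) (cw l X w)
        (fun w' => D.z (en a0 b0 w'))) ≤ η / t := by
    rw [le_div_iff₀ ht, mul_comm]
    exact h2
  linarith

theorem SEok.mono {Ω : Type} [Fintype Ω] {N F : ℕ} {s E s' E' : ℝ} {w : Ω → ℝ} {z : Ω → Fin N → ℝ}
    (h : SEok N F s E w z) (hs : s ≤ s') (hE : E' ≤ E) : SEok N F s' E' w z := by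
  refine ⟨fun Z hZ v hv c hc => ?_, ?_⟩
  · have := h.1 Z hZ v hv c hc
    linarith
  · have := h.2
    linarith

/-- explicit form: `s = e₁ n`, `E = ρ F - e₁ n`, failure `e₂` -/
theorem se_array' (h : AR D l en E) (hm : mass D.μ = 1) (a0 : ιr) (b0 : ιc) {ρ η εQ ηQ : ℝ}
    (hz : ∀ ω i, |D.z ω i| ≤ 1) (hρ : ρ ≤ N) (hη : 0 ≤ η)
    (hU : Pw D.μ (fun ω => ∃ k ≤ D.n, (N - ρ) * k + η * D.n < srp D.μ (fun ω' => vfl k (D.z ω')) D.F ω) ≤ η)
    (hQ : QuoF N D.n εQ ηQ D.μ D.F D.z) {χ : Type} (X : Λ → χ)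
    (hX : ∀ w w', l w ≠ 0 → l w' ≠ 0 → (∀ a b, D.P (en a b w) = D.P (en a b w')) →
      (∀ a b, D.Q (en a b w) = D.Q (en a b w')) → D.F (en a0 b0 w) = D.F (en a0 b0 w') → X w = X w')
    (hXF : ∀ w w', l w ≠ 0 → l w' ≠ 0 → X w = X w' → D.F (en a0 b0 w) = D.F (en a0 b0 w'))
    (hE : E ≤ ηQ * D.n) {F : ℕ} (hF : F ≤ D.n) {e₁ e₂ t : ℝ} (ht : 0 < t) (h1 : 0 < e₁ * D.n - cSE N)
    (h2 : 2 * (N * (εQ * D.n + 3 * (N - 1))) ≤ e₂ * (e₁ * D.n - cSE N)) (h3 : 2 * η ≤ e₂ * t)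
    (h4 : η * D.n + 1 + t * (N * (D.n + 2)) + cSE N ≤ e₁ * D.n) :
    Pw l (fun w => ¬ SEok N F (e₁ * D.n) (ρ * F - e₁ * D.n) (cw l X w) (fun w' => D.z (en a0 b0 w'))) ≤ e₂ := by
  have g1 := se_array h hm a0 b0 hz hρ hη hU hQ X hX hXF hE hF h1 ht
  have g2 : N * (εQ * D.n + 3 * (N - 1)) / (e₁ * D.n - cSE N) ≤ e₂ / 2 := by
    rw [div_le_iff₀ h1]
    linarith
  have g3 : η / t ≤ e₂ / 2 := by
    rw [div_le_iff₀ ht]
    linarith
  refine le_trans (Pw_mono l h.nn ?_) (g1.trans (by linarith))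
  intro w _ hbad hok
  exact hbad (hok.mono (by linarith) (by linarith))

end arr

/-- constants: `ε_Q` first, then `η` and `n` -/
theorem se_const (N : ℕ) {e₁ e₂ : ℝ} (h1 : 0 < e₁) (h2 : 0 < e₂) : ∃ εQ : ℝ, 0 < εQ ∧ ∃ t : ℝ, 0 < t ∧
    ∃ η₁ : ℝ, 0 < η₁ ∧ ∃ n₁ : ℕ, ∀ n : ℕ, n₁ ≤ n → ∀ η : ℝ, η ≤ η₁ → ∀ εQ' : ℝ, εQ' ≤ εQ →
      0 < e₁ * n - cSE N ∧ 2 * (N * (εQ' * n + 3 * (N - 1))) ≤ e₂ * (e₁ * n - cSE N) ∧ 2 * η ≤ e₂ * t ∧
        η * n + 1 + t * (N * (n + 2)) + cSE N ≤ e₁ * n := by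
  have hN : (0 : ℝ) ≤ N := Nat.cast_nonneg N
  have hc := cSE_nonneg N
  set c := cSE N with hcd
  have hN1 : (0 : ℝ) < N + 1 := by linarith
  obtain ⟨n₁, hn₁⟩ := exists_nat_ge (max ((c + 1) / e₁) (max ((12 * N ^ 2 + 2 * e₂ * c) / (e₁ * e₂))
    ((1 + e₁ + c) * 2 / e₁)))
  refine ⟨e₁ * e₂ / (8 * (N + 1)), by positivity, e₁ / (8 * (N + 1)), by positivity,
    min (e₁ * e₂ / (16 * (N + 1))) (e₁ / 8), by positivity, n₁, fun n hn η hη εQ' hε => ?_⟩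
  have hn' : (n₁ : ℝ) ≤ n := by exact_mod_cast hn
  have k1 : (c + 1) / e₁ ≤ n := ((le_max_left _ _).trans hn₁).trans hn'
  have k2 : (12 * N ^ 2 + 2 * e₂ * c) / (e₁ * e₂) ≤ n :=
    (((le_max_left _ _).trans (le_max_right _ _)).trans hn₁).trans hn'
  have k3 : (1 + e₁ + c) * 2 / e₁ ≤ n := (((le_max_right _ _).trans (le_max_right _ _)).trans hn₁).trans hn'
  rw [div_le_iff₀ h1] at k1 k3
  rw [div_le_iff₀ (by positivity)] at k2
  have hn0 : (0 : ℝ) ≤ n := Nat.cast_nonneg n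
  have η1 : η ≤ e₁ * e₂ / (16 * (N + 1)) := hη.trans (min_le_left _ _)
  have η2 : η ≤ e₁ / 8 := hη.trans (min_le_right _ _)
  have q1 : (N : ℝ) / (N + 1) ≤ 1 := by
    rw [div_le_one hN1]
    linarith
  have q2 : N * (e₁ * e₂ / (8 * (N + 1))) ≤ e₁ * e₂ / 8 := by
    have : N * (e₁ * e₂ / (8 * (N + 1))) = e₁ * e₂ / 8 * (N / (N + 1)) := by
      field_simp
    rw [this]
    exact mul_le_of_le_one_right (by positivity) q1
  have q3 : e₁ / (8 * (N + 1)) * N ≤ e₁ / 8 := by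
    have : e₁ / (8 * (N + 1)) * N = e₁ / 8 * (N / (N + 1)) := by
      field_simp
    rw [this]
    exact mul_le_of_le_one_right (by positivity) q1
  refine ⟨by linarith, ?_, ?_, ?_⟩
  · have a1 : N * (εQ' * n) ≤ e₁ * e₂ / 8 * n := by
      calc N * (εQ' * n) ≤ N * (e₁ * e₂ / (8 * (N + 1)) * n) :=
            mul_le_mul_of_nonneg_left (mul_le_mul_of_nonneg_right hε hn0) hN
        _ = N * (e₁ * e₂ / (8 * (N + 1))) * n := by ring
        _ ≤ e₁ * e₂ / 8 * n := mul_le_mul_of_nonneg_right q2 hn0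
    nlinarith
  · have a1 : e₂ * (e₁ / (8 * (N + 1))) = 2 * (e₁ * e₂ / (16 * (N + 1))) := by
      field_simp
      ring
    rw [a1]
    linarith
  · have a1 : η * n ≤ e₁ / 8 * n := mul_le_mul_of_nonneg_right η2 hn0
    have a2 : e₁ / (8 * (N + 1)) * (N * (n + 2)) ≤ e₁ / 8 * (n + 2) := by
      calc e₁ / (8 * (N + 1)) * (N * (n + 2)) = e₁ / (8 * (N + 1)) * N * (n + 2) := by ring
        _ ≤ e₁ / 8 * (n + 2) := mul_le_mul_of_nonneg_right q3 (by linarith)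
    nlinarith

end

end Pool.Agent.Helper18.FW
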