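import Pool.Agent.Helper15.VW.Tele
import Pool.Agent.Helper61.GL.KC

/-!
# START and END of the path (theorem FW): one law
-/

set_option autoImplicit false

namespace Pool.Agent.Helper18.FW

open Finset Matrix Pool.Agent.Helper69.RK Pool.Agent.Helper26.VW Pool.Agent.Helper78.FW
open Pool.Agent.Helper61.GL hiding fl
open Pool.Agent.Helper92.W (fl)
open Pool.Agent.Helper15.VW

variable {N : ℕ} {Ω δ : Type} [Fintype Ω]

/-- the chart with the vector `v` in the place `a` -/
def chv (a : Fin N) (v : Fin N → ℝ) : Mt N := fun i k => if k = a then v i else if i = k then 1 else 0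

theorem chv_col (a : Fin N) (v x : Fin N → ℝ) (i : Fin N) :
    (chv a v *ᵥ x) i = v i * x a + (if i = a then 0 else x i) := by
  simp only [Matrix.mulVec, dotProduct, chv]
  rw [← Finset.add_sum_erase univ _ (Finset.mem_univ a)]
  rw [if_pos rfl]
  congr 1
  by_cases h : i = a
  · rw [if_pos h]
    apply Finset.sum_eq_zero
    intro k hk
    have hk' := Finset.ne_of_mem_erase hk
    rw [if_neg hk', if_neg (fun e => hk' (e.symm.trans h)), zero_mul]
  · rw [if_neg h, Finset.sum_eq_single i]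
    · rw [if_neg h, if_pos rfl, one_mul]
    · intro k hk hki
      have hk' := Finset.ne_of_mem_erase hk
      rw [if_neg hk', if_neg (fun e => hki e.symm), zero_mul]
    · intro hi
      exact absurd (Finset.mem_erase.mpr ⟨h, Finset.mem_univ i⟩) hi

theorem chv_det (a : Fin N) (v : Fin N → ℝ) : (chv a v).det = v a := by
  have h1 : chv a v = (1 : Mt N).updateCol a v := by
    ext i k
    unfold chv
    rw [Matrix.updateCol_apply, Matrix.one_apply]
  rw [h1, ← Matrix.cramer_apply]
  simp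

/-- the coordinates of the chart -/
noncomputable def cov (a : Fin N) (v z : Fin N → ℝ) : Fin N → ℝ :=
  fun i => if i = a then z a / v a else z i - v i / v a * z a

theorem chv_inv (a : Fin N) (v : Fin N → ℝ) (ha : v a ≠ 0) (z : Fin N → ℝ) :
    (chv a v)⁻¹ *ᵥ z = cov a v z := by
  have h1 : chv a v *ᵥ cov a v z = z := by
    funext i
    rw [chv_col]
    unfold cov
    rw [if_pos rfl]
    by_cases h : i = a
    · rw [if_pos h, h]
      field_simp
      ring
    · rw [if_neg h, if_neg h]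
      field_simp
      ring
  have h2 : (chv a v).det ≠ 0 := by
    rw [chv_det]
    exact ha
  calc (chv a v)⁻¹ *ᵥ z = (chv a v)⁻¹ *ᵥ (chv a v *ᵥ cov a v z) := by rw [h1]
    _ = cov a v z := by
      rw [Matrix.mulVec_mulVec, Matrix.nonsing_inv_mul _ (isUnit_iff_ne_zero.2 h2), Matrix.one_mulVec]

/-- the levels of the chart -/
def lev (a : Fin N) (m : ℕ) : Fin N → ℕ := fun k => if k = a then 0 else m

theorem lev_sum (a : Fin N) (m : ℕ) : (∑ k, (lev a m k : ℝ)) = ((N : ℝ) - 1) * m := by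
  unfold lev
  rw [← Finset.add_sum_erase univ _ (Finset.mem_univ a), if_pos rfl]
  have h1 : ∑ x ∈ univ.erase a, ((if x = a then (0 : ℕ) else m : ℕ) : ℝ) = ∑ _x ∈ univ.erase a, (m : ℝ) := by
    apply Finset.sum_congr rfl
    intro k hk
    rw [if_neg (Finset.ne_of_mem_erase hk)]
  have hN : 1 ≤ N := by
    have := a.2
    omega
  rw [h1, Finset.sum_const, Finset.card_erase_of_mem (Finset.mem_univ a), Finset.card_univ,
    Fintype.card_fin, nsmul_eq_mul, Nat.cast_sub hN]
  push_cast
  ring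

/-- the quotient by the direction `w` (with `w a = 1`) -/
def qv (a : Fin N) (w z : Fin N → ℝ) : Fin N → ℝ := fun i => z i - w i * z a

/-- digits of the quotient: from the level `n` to a coarser level -/
theorem qv_digits (μ : Ω → ℝ) (hμ : ∀ ω, 0 ≤ μ ω) (z : Ω → Fin N → ℝ) (Y : Ω → δ) (a : Fin N)
    (w : Fin N → ℝ) (hw : w a = 1) {m n : ℕ} (hmn : m ≤ n) :
    CH μ (fun ω => fun i => fl n (qv a w (z ω) i)) Y ≤
      CH μ (fun ω => fun i => fl m (qv a w (z ω) i)) Y + ((N : ℝ) - 1) * (n - m) * mass μ := by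
  classical
  have h1 := ch_tri μ hμ (fun ω => fun i => fl n (qv a w (z ω) i))
    (fun ω => fun i => fl m (qv a w (z ω) i)) Y
  have h2 := ch_pi_le μ hμ (fun (i : Fin N) ω => fl n (qv a w (z ω) i))
    (fun ω => ((fun i => fl m (qv a w (z ω) i)), Y ω)) (fun _ g => g)
  have h3 : ∀ i : Fin N, i ≠ a → CH μ (fun ω => fl n (qv a w (z ω) i))
      (fun ω => ((fun i => fl m (qv a w (z ω) i)), Y ω)) ≤ ((n : ℝ) - m) * mass μ := by
    intro i _
    have := ch_digits μ hμ (fun ω => qv a w (z ω) i)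
      (fun ω => ((fun i => fl m (qv a w (z ω) i)), Y ω)) hmn
      (fun ω ω' _ _ e => congrFun (congrArg Prod.fst e) i)
    rw [Nat.cast_sub hmn] at this
    exact this
  have h4 : CH μ (fun ω => fl n (qv a w (z ω) a))
      (fun ω => ((fun i => fl m (qv a w (z ω) i)), Y ω)) = 0 := by
    apply ch_zero
    intro ω ω' _ _ _
    unfold qv
    rw [hw]
    congr 1
    ring
  have h5 : ∑ i : Fin N, CH μ (fun ω => fl n (qv a w (z ω) i))
      (hg (fun _ g => g) (fun ω => ((fun i => fl m (qv a w (z ω) i)), Y ω)) i) ≤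
      ((N : ℝ) - 1) * (n - m) * mass μ := by
    have h6 : ∀ i : Fin N, CH μ (fun ω => fl n (qv a w (z ω) i))
      (hg (fun _ g => g) (fun ω => ((fun i => fl m (qv a w (z ω) i)), Y ω)) i) =
      CH μ (fun ω => fl n (qv a w (z ω) i)) (fun ω => ((fun i => fl m (qv a w (z ω) i)), Y ω)) :=
      fun i => rfl
    rw [Finset.sum_congr rfl fun i _ => h6 i, ← Finset.add_sum_erase univ _ (Finset.mem_univ a), h4, zero_add]
    calc ∑ i ∈ univ.erase a, CH μ (fun ω => fl n (qv a w (z ω) i))
          (fun ω => ((fun i => fl m (qv a w (z ω) i)), Y ω)) ≤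
        ∑ _i ∈ univ.erase a, ((n : ℝ) - m) * mass μ :=
          Finset.sum_le_sum fun i hi => h3 i (Finset.ne_of_mem_erase hi)
      _ = ((N : ℝ) - 1) * (n - m) * mass μ := by
        have hN : 1 ≤ N := by
          have := a.2
          omega
        rw [Finset.sum_const, Finset.card_erase_of_mem (Finset.mem_univ a), Finset.card_univ,
          Fintype.card_fin, nsmul_eq_mul, Nat.cast_sub hN]
        push_cast
        ring
  linarith

/-- the constant of START -/
noncomputable def cS1 (N : ℕ) : ℝ := N * Real.logb 2 (2 * (1 + 2 * (N * 1)))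

theorem cS1_nonneg (N : ℕ) : 0 ≤ cS1 N := by
  unfold cS1
  apply mul_nonneg (Nat.cast_nonneg N)
  apply Real.logb_nonneg (by norm_num)
  have : (0 : ℝ) ≤ N := Nat.cast_nonneg N
  linarith

/-- START, with the hypothesis for the direction of `v` only -/
theorem start_one (μ : Ω → ℝ) (hμ : ∀ ω, 0 ≤ μ ω) (hm : mass μ = 1) (z : Ω → Fin N → ℝ) (Y : Ω → δ)
    {m n : ℕ} (hmn : m ≤ n) (d : ℝ) (Z : Multiset (Fin N → ℝ)) (hZ : fam (flr (N := N) ((1 / 2) ^ m)) ≤ Z)
    (v : Fin N → ℝ) (hv : v ∈ Z) (a : Fin N) (ha : v a ≠ 0)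
    (hQ : ((N : ℝ) - 1) * n - d ≤ CH μ (fun ω => fun i => fl n (qv a (fun i => v i / v a) (z ω) i)) Y) :
    Real.logb 2 |v a| - (d + cS1 N) ≤ SZ μ z Y Z := by
  have hφ : (0 : ℝ) < (1 / 2) ^ m := by positivity
  have hP : (chv a v).det ≠ 0 := by
    rw [chv_det]
    exact ha
  have h1 := qv_digits μ hμ z Y a (fun i => v i / v a) (div_self ha) hmn
  rw [hm, mul_one] at h1
  have h2 : SF μ z Y (dfr (chv a v) (lev a m)) =
      CH μ (fun ω => fun k => fl (lev a m k) (cov a v (z ω) k)) Y + Real.logb 2 |v a| - ((N : ℝ) - 1) * m := by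
    have h3 := SFV_dfr μ z Y (fun _ => chv a v) (fun _ _ => hP) (lev a m)
    have h4 : SFV μ z Y (fun _ => dfr (chv a v) (lev a m)) = SF μ z Y (dfr (chv a v) (lev a m)) := by
      unfold SFV SF
      rw [← Finset.sum_mul]
      have : ∑ ω, μ ω = 1 := hm
      rw [this, one_mul]
    rw [h4, lev_sum, hm, mul_one, chv_det, ← Finset.sum_mul] at h3
    have h5 : ∑ ω, μ ω = 1 := hm
    rw [h5, one_mul] at h3
    rw [h3]
    congr 3
    funext ω
    funext k
    rw [chv_inv a v ha]
  have h6 : CH μ (fun ω => fun i => fl m (qv a (fun i => v i / v a) (z ω) i)) Y ≤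
      CH μ (fun ω => fun k => fl (lev a m k) (cov a v (z ω) k)) Y := by
    apply ch_mono μ hμ
    intro ω ω' _ _ e _
    funext i
    by_cases h : i = a
    · subst h
      change fl m (z ω i - v i / v i * z ω i) = fl m (z ω' i - v i / v i * z ω' i)
      rw [div_self ha]
      congr 1
      ring
    · have := congrFun e i
      unfold lev cov at this
      rw [if_neg h, if_neg h, if_neg h] at this
      exact this
  have h7 : SF μ z Y (dfr (chv a v) (lev a m)) ≤ SF μ z Y (frm Z) + cS1 N := by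
    unfold cS1
    apply SF_mono μ hμ hm z Y _ _ (dfr_ne _ hP _) (frm_det hφ hZ) 1 zero_le_one
    intro i k
    have h8 : ((frm Z)⁻¹ * dfr (chv a v) (lev a m)) i k =
        ((frm Z)⁻¹ *ᵥ (fun j => dfr (chv a v) (lev a m) j k)) i := by
      simp only [Matrix.mul_apply, Matrix.mulVec, dotProduct]
    rw [h8]
    apply frm_mem hφ hZ
    by_cases h : k = a
    · have h9 : (fun j => dfr (chv a v) (lev a m) j k) = v := by
        funext j
        unfold dfr
        rw [Matrix.mul_diagonal]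
        unfold chv lev
        rw [if_pos h, if_pos h, pow_zero, mul_one]
      rw [h9]
      exact hv
    · have h9 : (fun j => dfr (chv a v) (lev a m) j k) = flr ((1 / 2) ^ m) k := by
        funext j
        unfold dfr
        rw [Matrix.mul_diagonal]
        unfold chv lev flr
        rw [if_neg h, if_neg h, Pi.single_apply]
        split_ifs <;> simp
      rw [h9]
      exact Multiset.mem_of_le hZ (mem_fam _ k)
  unfold SZ
  linarith

/-- START (78's form): if all the quotients are full, every family with a long vector has a large value -/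
theorem start_all (μ : Ω → ℝ) (hμ : ∀ ω, 0 ≤ μ ω) (hm : mass μ = 1) (z : Ω → Fin N → ℝ) (Y : Ω → δ)
    {m n : ℕ} (hmn : m ≤ n) (d : ℝ)
    (hQ : ∀ (a : Fin N) (w : Fin N → ℝ), w a = 1 → (∀ i, |w i| ≤ 1) →
      ((N : ℝ) - 1) * n - d ≤ CH μ (fun ω => fun i => fl n (qv a w (z ω) i)) Y)
    (Z : Multiset (Fin N → ℝ)) (hZ : fam (flr (N := N) ((1 / 2) ^ m)) ≤ Z)
    (v : Fin N → ℝ) (hv : v ∈ Z) (c : Fin N) (hc : v c ≠ 0) :
    Real.logb 2 |v c| - (d + cS1 N) ≤ SZ μ z Y Z := by
  obtain ⟨a, _, ha⟩ := Finset.exists_max_image univ (fun i => |v i|) ⟨c, Finset.mem_univ c⟩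
  have h1 : 0 < |v c| := abs_pos.mpr hc
  have h2 : |v c| ≤ |v a| := ha c (Finset.mem_univ c)
  have h3 : v a ≠ 0 := abs_pos.mp (h1.trans_le h2)
  have h4 := start_one μ hμ hm z Y hmn d Z hZ v hv a h3 (hQ a (fun i => v i / v a) (div_self h3) (by
    intro i
    rw [abs_div]
    exact div_le_one_of_le₀ (ha i (Finset.mem_univ i)) (abs_nonneg _)))
  have h5 : Real.logb 2 |v c| ≤ Real.logb 2 |v a| := Real.logb_le_logb_of_le (by norm_num) h1 h2
  linarith

/-- the frame of the floor is the floor up to a permutation and signs: END -/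
theorem end_one (μ : Ω → ℝ) (hμ : ∀ ω, 0 ≤ μ ω) (hm : mass μ = 1) (z : Ω → Fin N → ℝ) (Y : Ω → δ)
    (m : ℕ) (e : ℝ) (hU : CH μ (fun ω => fun i => fl m (z ω i)) Y ≤ (N : ℝ) * m - e) :
    SZ μ z Y (fam (flr (N := N) ((1 / 2) ^ m))) ≤ - e + cS1 N := by
  have hφ : (0 : ℝ) < (1 / 2) ^ m := by positivity
  have hP : (1 : Mt N).det ≠ 0 := by
    rw [Matrix.det_one]
    exact one_ne_zero
  have h2 : SF μ z Y (dfr (1 : Mt N) (fun _ => m)) =
      CH μ (fun ω => fun i => fl m (z ω i)) Y - (N : ℝ) * m := by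
    have h3 := SFV_dfr μ z Y (fun _ => (1 : Mt N)) (fun _ _ => hP) (fun _ => m)
    have h4 : SFV μ z Y (fun _ => dfr (1 : Mt N) (fun _ => m)) = SF μ z Y (dfr (1 : Mt N) (fun _ => m)) := by
      unfold SFV SF
      rw [← Finset.sum_mul]
      have : ∑ ω, μ ω = 1 := hm
      rw [this, one_mul]
    rw [h4, hm, mul_one, Matrix.det_one, abs_one, Real.logb_one, Finset.sum_const, Finset.card_univ,
      Fintype.card_fin, nsmul_eq_mul] at h3
    rw [h3]
    simp only [mul_zero, Finset.sum_const_zero, add_zero, inv_one, Matrix.one_mulVec]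
  have h7 : SF μ z Y (frm (fam (flr (N := N) ((1 / 2) ^ m)))) ≤ SF μ z Y (dfr (1 : Mt N) (fun _ => m)) +
      cS1 N := by
    unfold cS1
    apply SF_mono μ hμ hm z Y _ _ (frm_det hφ le_rfl) (dfr_ne _ hP _) 1 zero_le_one
    intro i k
    have h8 : ((dfr (1 : Mt N) (fun _ => m))⁻¹ * frm (fam (flr (N := N) ((1 / 2) ^ m)))) i k =
        2 ^ m * fw (fam (flr (N := N) ((1 / 2) ^ m))) k i := by
      rw [dfr_inv _ hP, inv_one, Matrix.mul_one, Matrix.diagonal_mul]
      rfl
    rw [h8]
    have h9 := fw_mem (N := N) (φ := (1 / 2) ^ m) le_rfl k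
    obtain ⟨j, hj⟩ := (mem_fam_iff _ _).mp h9
    rw [← hj]
    unfold flr
    rw [Pi.single_apply]
    split_ifs
    · rw [← mul_pow]
      norm_num
    · simp
  unfold SZ
  linarith

end Pool.Agent.Helper18.FW
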